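import Pool.Agent.W795.TQ.PStm

/-!
The energy identity minus the equation tested with a fixed field (task `S_cross`).
-/

set_option autoImplicit false

open MeasureTheory Set H459R3.NS
open scoped ContDiff

namespace Pool.Agent.W978.TQ

open Pool.Agent.W795.TQ

section space

variable {u v : Fin 3 → V → ℝ}

/-- The convection term tested with a field, after integration by parts. -/
theorem conv_test (hu : ∀ i, SP (u i)) (hv : ∀ i, SP (v i)) (hdiv : ∀ x, ∑ i, pd i (u i) x = 0) :
    ∑ i, ∫ x in cube, conv u i x * v i x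
      = -∑ i, ∑ j, ∫ x in cube, u j x * (pd j (v i) x * u i x) := by
  rw [← Finset.sum_neg_distrib]
  refine Finset.sum_congr rfl fun i _ => ?_
  have h1 : ∫ x in cube, conv u i x * v i x
      = ∑ j, ∫ x in cube, pd j (u i) x * (u j x * v i x) := by
    rw [← integral_finsetSum _ fun j _ => (((hu i).pd j).mul ((hu j).mul (hv i))).int]
    congr 1
    funext x
    unfold conv
    rw [Finset.sum_mul]
    exact Finset.sum_congr rfl fun j _ => by ring
  have h2 : ∀ j, ∫ x in cube, pd j (u i) x * (u j x * v i x)
      = -(∫ x in cube, u j x * (pd j (v i) x * u i x))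
        - ∫ x in cube, pd j (u j) x * (u i x * v i x) := by
    intro j
    rw [ibp (hu i) ((hu j).mul (hv i)) j]
    simp_rw [pd_mul (hu j) (hv i)]
    have e : ∀ x, u i x * (u j x * pd j (v i) x + pd j (u j) x * v i x)
        = u j x * (pd j (v i) x * u i x) + pd j (u j) x * (u i x * v i x) := by
      intro x; ring
    simp_rw [e]
    rw [integral_add ((hu j).mul (((hv i).pd j).mul (hu i))).int
      (((hu j).pd j).mul ((hu i).mul (hv i))).int]
    ring
  rw [h1]
  simp_rw [h2]
  rw [Finset.sum_sub_distrib, Finset.sum_neg_distrib,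
    ← integral_finsetSum (f := fun j x => pd j (u j) x * (u i x * v i x)) _
      fun j _ => (((hu j).pd j).mul ((hu i).mul (hv i))).int]
  have h3 : ∀ x, ∑ j, pd j (u j) x * (u i x * v i x) = 0 := by
    intro x
    rw [← Finset.sum_mul, hdiv x, zero_mul]
  simp_rw [h3]
  simp

end space

variable {ν T : ℝ} {u : ℝ → V → V} {p : ℝ → V → ℝ}

theorem ip_hasDerivAt (h : IsSol ν T u p) {v : V → V} (hv : ∀ i, SP fun y => v y i)
    (hdv : DivF v) {t : ℝ} (ht : t ∈ Ioo 0 T) :
    HasDerivAt (fun s => ip (u s) v) (-(ν * gip (u t) v) + tr (u t) v (u t)) t := by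
  have hI : t ∈ Ico 0 T := ⟨ht.1.le, ht.2⟩
  have hsp : ∀ i, SP (fun y => u t y i) := fun i => h.sp hI i
  have hdiv : ∀ x, ∑ i, pd i (fun y => u t y i) x = 0 := h.divfree t hI
  have h1 : ∀ i, HasDerivAt (fun s => ∫ x in cube, u s x i * v x i)
      (∫ x in cube, dt (fun s y => u s y i) t x * v x i) t := by
    intro i
    have hv1 : ContDiffOn ℝ 1 (fun z : ℝ × V => v z.2 i) (Ioo 0 T ×ˢ univ) :=
      (((hv i).smooth.of_le (by norm_cast)).comp contDiff_snd).contDiffOn
    have hF : ContDiffOn ℝ 1 (fun z : ℝ × V => u z.1 z.2 i * v z.2 i) (Ioo 0 T ×ˢ univ) :=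
      (mono_Ioo (f := fun s y => u s y i) (h.smooth_c i) (by norm_cast)).mul hv1
    have key := hasDerivAt_int (F := fun s x => u s x i * v x i) hF ht
    refine key.congr_deriv ?_
    congr 1
    funext x
    have h2 : HasDerivAt (fun s => u s x i) (dt (fun s y => u s y i) t x) t := by
      have := hasDerivAt_slice (F := fun s y => u s y i)
        (mono_Ioo (f := fun s y => u s y i) (h.smooth_c i) (by norm_cast)) ht x
      rwa [← H459R3.NS.dt_eq (f := fun s y => u s y i) (h.smooth_c i) ht x] at this
    exact (h2.mul_const (v x i)).deriv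
  have h2 : HasDerivAt (fun s => ip (u s) v)
      (∑ i, ∫ x in cube, dt (fun s y => u s y i) t x * v x i) t :=
    HasDerivAt.fun_sum fun i _ => h1 i
  refine h2.congr_deriv ?_
  have e1 : ∀ i, ∫ x in cube, dt (fun s y => u s y i) t x * v x i
      = ν * (∫ x in cube, lap (fun y => u t y i) x * v x i)
        - (∫ x in cube, conv (fun i y => u t y i) i x * v x i)
        - ∫ x in cube, v x i * pd i (p t) x := by
    intro i
    have e : ∀ x, dt (fun s y => u s y i) t x * v x i
        = ν * (lap (fun y => u t y i) x * v x i) - conv (fun i y => u t y i) i x * v x i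
          - v x i * pd i (p t) x := by
      intro x
      rw [h.dt_eq ht]
      ring
    simp_rw [e]
    have i1 : IntegrableOn (fun x => ν * (lap (fun y => u t y i) x * v x i)) cube :=
      ((hsp i).lap.mul (hv i)).int.const_mul ν
    have i2 : IntegrableOn (fun x => conv (fun i y => u t y i) i x * v x i) cube :=
      ((sp_conv hsp i).mul (hv i)).int
    have i3 : IntegrableOn (fun x => v x i * pd i (p t) x) cube :=
      ((hv i).mul ((h.sp_p hI).pd i)).int
    have i12 : IntegrableOn (fun x => ν * (lap (fun y => u t y i) x * v x i)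
        - conv (fun i y => u t y i) i x * v x i) cube :=
      i1.sub i2
    rw [integral_sub i12 i3, integral_sub i1 i2, integral_const_mul]
  simp_rw [e1]
  rw [Finset.sum_sub_distrib, Finset.sum_sub_distrib,
    int_press (v := fun i y => v y i) hv hdv (h.sp_p hI),
    conv_test (u := fun i y => u t y i) (v := fun i y => v y i) hsp hv hdiv, ← Finset.mul_sum]
  have e2 : ∑ i, ∫ x in cube, lap (fun y => u t y i) x * v x i = -gip (u t) v := by
    unfold gip
    rw [← Finset.sum_neg_distrib]
    exact Finset.sum_congr rfl fun i _ => int_lap_mul (hsp i) (hv i)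
  rw [e2]
  unfold tr
  ring

theorem gip_cont (h : IsSol ν T u p) {v : V → V} (hv : ∀ i, SP fun y => v y i) :
    ContinuousOn (fun s => gip (u s) v) (Ico 0 T) := by
  unfold gip
  refine continuousOn_finsetSum _ fun i _ => continuousOn_finsetSum _ fun j _ => ?_
  exact continuousOn_int
    (F := fun s x => pd j (fun y => u s y i) x * pd j (fun y => v y i) x)
    ((contDiffOn_pd (f := fun s y => u s y i) (h.smooth_c i) j).continuousOn.mul
      ((((hv i).pd j).cont.comp continuous_snd).continuousOn))

theorem tr_cont (h : IsSol ν T u p) {v : V → V} (hv : ∀ i, SP fun y => v y i) :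
    ContinuousOn (fun s => tr (u s) v (u s)) (Ico 0 T) := by
  unfold tr
  refine continuousOn_finsetSum _ fun i _ => continuousOn_finsetSum _ fun j _ => ?_
  exact continuousOn_int
    (F := fun s x => u s x j * (pd j (fun y => v y i) x * u s x i))
    ((h.smooth_c j).continuousOn.mul
      (((((hv i).pd j).cont.comp continuous_snd).continuousOn).mul (h.smooth_c i).continuousOn))

theorem proof : Pool.Agent.W795.TQ.S_cross := by
  intro ν T u p v h hv hdv
  refine ⟨gip_cont h hv, tr_cont h hv, ?_⟩
  intro a b ha hab hb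
  have hsub : uIcc a b ⊆ Ico 0 T := by
    rw [uIcc_of_le hab]
    exact fun s hs => ⟨ha.le.trans hs.1, hs.2.trans_lt hb⟩
  have hsub' : ∀ s ∈ uIcc a b, s ∈ Ioo 0 T := by
    rw [uIcc_of_le hab]
    exact fun s hs => ⟨ha.trans_le hs.1, hs.2.trans_lt hb⟩
  have c1 : ContinuousOn (fun s => enstrophy (u s)) (uIcc a b) :=
    h.enstrophy_continuousOn.mono hsub
  have c2 : ContinuousOn (fun s => ν * gip (u s) v - tr (u s) v (u s)) (uIcc a b) :=
    (((gip_cont h hv).mono hsub).const_mul ν).sub ((tr_cont h hv).mono hsub)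
  have hder : ∀ s ∈ uIcc a b, HasDerivAt (fun s => energy (u s) / 2 - ip (u s) v)
      ((ν * gip (u s) v - tr (u s) v (u s)) - ν * enstrophy (u s)) s := by
    intro s hs
    have h1 := (h.energy_hasDerivAt (hsub' s hs)).div_const 2
    have h2 := ip_hasDerivAt h hv hdv (hsub' s hs)
    refine (h1.sub h2).congr_deriv ?_
    ring
  have key := intervalIntegral.integral_eq_sub_of_hasDerivAt hder
    (c2.sub (c1.const_mul ν)).intervalIntegrable
  rw [intervalIntegral.integral_sub c2.intervalIntegrable (c1.const_mul ν).intervalIntegrable,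
    intervalIntegral.integral_const_mul] at key
  linarith

end Pool.Agent.W978.TQ
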